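import Mathlib

/-!
On every infinite set algebra there is an increasing set function with values in `{0, 1}`
which is not a difference of two bounded submodular set functions.
-/

namespace Pool.Agent.Results.MP_2db6a9_co.InfiniteAlgebras

open MeasureTheory

variable {J : Type*}

/-- `φ` is increasing on the family `𝓑`. -/
def IsIncreasing {𝓑 : Set (Set J)} (φ : 𝓑 → ℝ) : Prop :=
  ∀ X Y : 𝓑, X.1 ⊆ Y.1 → φ X ≤ φ Y

/-- `φ` is bounded on the family `𝓑`. -/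
def IsBoundedFun {𝓑 : Set (Set J)} (φ : 𝓑 → ℝ) : Prop :=
  ∃ b : ℝ, ∀ X : 𝓑, |φ X| ≤ b

/-- `φ` is submodular on the family `𝓑` (meant for families closed under unions and
intersections). -/
def IsSubmodular {𝓑 : Set (Set J)} (φ : 𝓑 → ℝ) : Prop :=
  ∀ X Y I U : 𝓑, I.1 = X.1 ∩ Y.1 → U.1 = X.1 ∪ Y.1 → φ X + φ Y ≥ φ I + φ U

/-- `φ` has bounded variation: it is a difference of two increasing set functions. -/
def HasBoundedVariation {𝓑 : Set (Set J)} (φ : 𝓑 → ℝ) : Prop :=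
  ∃ f g : 𝓑 → ℝ, IsIncreasing f ∧ IsIncreasing g ∧ ∀ X, φ X = f X - g X

theorem exists_smaller {𝓑 : Set (Set J)} (h𝓑 : IsSetAlgebra 𝓑) {b : Set J} (hb : b ∈ 𝓑)
    (hinf : {x | x ∈ 𝓑 ∧ x ⊆ b}.Infinite) :
    ∃ c, c ∈ 𝓑 ∧ c ⊂ b ∧ {x | x ∈ 𝓑 ∧ x ⊆ c}.Infinite := by
  obtain ⟨c, ⟨hc, hcb⟩, hne⟩ := hinf.exists_notMem_finite (Set.toFinite {∅, b})
  simp only [Set.mem_insert_iff, Set.mem_singleton_iff, not_or] at hne
  obtain ⟨hc0, hcb'⟩ := hne
  have hdiff : b \ c ∈ 𝓑 := h𝓑.sdiff_mem hb hc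
  by_cases h1 : {x | x ∈ 𝓑 ∧ x ⊆ c}.Infinite
  · exact ⟨c, hc, lt_of_le_of_ne hcb hcb', h1⟩
  by_cases h2 : {x | x ∈ 𝓑 ∧ x ⊆ b \ c}.Infinite
  · refine ⟨b \ c, hdiff, lt_of_le_of_ne Set.sdiff_subset ?_, h2⟩
    intro heq
    obtain ⟨x, hx⟩ := Set.nonempty_iff_ne_empty.2 hc0
    have hxb : x ∈ b \ c := heq.symm ▸ (hcb hx)
    exact hxb.2 hx
  exfalso
  rw [Set.not_infinite] at h1 h2
  apply hinf
  refine Set.Finite.of_finite_image ((h1.prod h2).subset ?_)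
    (f := fun x : Set J => (x ∩ c, x ∩ (b \ c))) ?_
  · rintro _ ⟨x, ⟨hx, hxb⟩, rfl⟩
    exact ⟨⟨h𝓑.inter_mem hx hc, Set.inter_subset_right⟩,
      ⟨h𝓑.inter_mem hx hdiff, Set.inter_subset_right⟩⟩
  · rintro x ⟨_, hxb⟩ y ⟨_, hyb⟩ hxy
    have h1' : x ∩ c = y ∩ c := congrArg Prod.fst hxy
    have h2' : x ∩ (b \ c) = y ∩ (b \ c) := congrArg Prod.snd hxy
    have hx : x = (x ∩ c) ∪ (x ∩ (b \ c)) := by
      rw [← Set.inter_union_distrib_left, Set.union_sdiff_cancel hcb,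
        Set.inter_eq_left.2 hxb]
    have hy : y = (y ∩ c) ∪ (y ∩ (b \ c)) := by
      rw [← Set.inter_union_distrib_left, Set.union_sdiff_cancel hcb,
        Set.inter_eq_left.2 hyb]
    rw [hx, hy, h1', h2']

/-- An infinite set algebra has an infinite sequence of pairwise disjoint nonempty members. -/
theorem exists_disjoint_seq {𝓑 : Set (Set J)} (h𝓑 : IsSetAlgebra 𝓑) (hinf : 𝓑.Infinite) :
    ∃ E : ℕ → Set J, (∀ n, E n ∈ 𝓑) ∧ (∀ n, (E n).Nonempty) ∧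
      ∀ m n x, x ∈ E m → x ∈ E n → m = n := by
  have huniv : (Set.univ : Set J) ∈ 𝓑 := h𝓑.univ_mem
  have hinf' : {x | x ∈ 𝓑 ∧ x ⊆ (Set.univ : Set J)}.Infinite := by
    have : {x | x ∈ 𝓑 ∧ x ⊆ (Set.univ : Set J)} = 𝓑 := by ext x; simp
    rw [this]; exact hinf
  choose! nxt hnxt using fun (b : Set J) (hb : b ∈ 𝓑 ∧ {x | x ∈ 𝓑 ∧ x ⊆ b}.Infinite) =>
    exists_smaller h𝓑 hb.1 hb.2
  let f : ℕ → Set J := fun n => nxt^[n] Set.univ
  have hf : ∀ n, f n ∈ 𝓑 ∧ {x | x ∈ 𝓑 ∧ x ⊆ f n}.Infinite := by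
    intro n
    induction n with
    | zero => exact ⟨huniv, hinf'⟩
    | succ n ih =>
      have : f (n + 1) = nxt (f n) := Function.iterate_succ_apply' nxt n _
      rw [this]
      exact ⟨(hnxt _ ih).1, (hnxt _ ih).2.2⟩
  have hstep : ∀ n, f (n + 1) ⊂ f n := by
    intro n
    have : f (n + 1) = nxt (f n) := Function.iterate_succ_apply' nxt n _
    rw [this]
    exact (hnxt _ (hf n)).2.1
  have hanti : Antitone f := antitone_nat_of_succ_le fun n => (hstep n).1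
  have key : ∀ m n x, m < n → x ∈ f m \ f (m + 1) → x ∈ f n \ f (n + 1) → False := by
    intro m n x hmn hxm hxn
    exact hxm.2 (hanti (Nat.succ_le_of_lt hmn) hxn.1)
  refine ⟨fun n => f n \ f (n + 1), fun n => h𝓑.sdiff_mem (hf n).1 (hf (n + 1)).1,
    fun n => Set.nonempty_of_ssubset (hstep n), fun m n x hm hn => ?_⟩
  rcases lt_trichotomy m n with h | h | h
  · exact (key m n x h hm hn).elim
  · exact h
  · exact (key n m x h hn hm).elim

/-- Telescoping of mixed second differences. -/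
theorem sum_mixed (g : ℕ → ℕ → ℝ) (N : ℕ) :
    ∑ i ∈ Finset.range N, ∑ j ∈ Finset.range N,
      (g (i + 1) (j + 1) - g (i + 1) j - (g i (j + 1) - g i j)) =
    g N N - g N 0 - (g 0 N - g 0 0) := by
  have h1 : ∀ i, ∑ j ∈ Finset.range N,
      (g (i + 1) (j + 1) - g (i + 1) j - (g i (j + 1) - g i j)) =
      (g (i + 1) N - g (i + 1) 0) - (g i N - g i 0) := by
    intro i
    rw [Finset.sum_sub_distrib, Finset.sum_range_sub, Finset.sum_range_sub]
  simp_rw [h1]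
  rw [Finset.sum_range_sub (fun i => g i N - g i 0)]

theorem grid_bound (g₁ g₂ : ℕ → ℕ → ℝ) (N : ℕ) (b : ℝ)
    (hb : ∀ i j, |g₁ i j| ≤ b)
    (h1 : ∀ i j, g₁ (i + 1) (j + 1) - g₁ (i + 1) j - (g₁ i (j + 1) - g₁ i j) ≤ 0)
    (h2 : ∀ i j, g₂ (i + 1) (j + 1) - g₂ (i + 1) j - (g₂ i (j + 1) - g₂ i j) ≤ 0)
    (h : ∀ i j, g₁ i j - g₂ i j = if N ≤ i + j then 1 else 0) : (N : ℝ) ≤ 4 * b := by
  have hrow : ∀ i ∈ Finset.range N, ∑ j ∈ Finset.range N,
      (g₁ (i + 1) (j + 1) - g₁ (i + 1) j - (g₁ i (j + 1) - g₁ i j)) ≤ -1 := by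
    intro i hi
    have hi' : i < N := Finset.mem_range.1 hi
    have hj : N - 1 - i ∈ Finset.range N := by
      rw [Finset.mem_range]; omega
    have hs := Finset.single_le_sum (s := Finset.range N)
      (f := fun j => -(g₁ (i + 1) (j + 1) - g₁ (i + 1) j - (g₁ i (j + 1) - g₁ i j)))
      (fun j _ => by have := h1 i j; linarith) hj
    rw [Finset.sum_neg_distrib] at hs
    have e1 := h (i + 1) (N - 1 - i + 1)
    have e2 := h (i + 1) (N - 1 - i)
    have e3 := h i (N - 1 - i + 1)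
    have e4 := h i (N - 1 - i)
    rw [if_pos (by omega)] at e1 e2 e3
    rw [if_neg (by omega)] at e4
    have := h2 i (N - 1 - i)
    linarith
  have htot := Finset.sum_le_sum hrow
  rw [sum_mixed] at htot
  simp only [Finset.sum_const, Finset.card_range, nsmul_eq_mul] at htot
  have b1 := abs_le.1 (hb N N)
  have b2 := abs_le.1 (hb N 0)
  have b3 := abs_le.1 (hb 0 N)
  have b4 := abs_le.1 (hb 0 0)
  linarith [b1.1, b2.2, b3.2, b4.1]

/-- The index set of the building blocks. -/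
abbrev Idx := ℕ × ℕ × Bool

/-- The sets of the `m`-th grid. -/
def G (E : Idx → Set J) (m i j : ℕ) : Set J :=
  (⋃ k ∈ Finset.range i, E (m, k, false)) ∪ (⋃ k ∈ Finset.range j, E (m, k, true))

theorem G_mem {𝓑 : Set (Set J)} (h𝓑 : IsSetAlgebra 𝓑) {E : Idx → Set J}
    (hE : ∀ t, E t ∈ 𝓑) (m i j : ℕ) : G E m i j ∈ 𝓑 :=
  h𝓑.union_mem (h𝓑.biUnion_mem _ fun _ _ => hE _) (h𝓑.biUnion_mem _ fun _ _ => hE _)

theorem G_succ_succ (E : Idx → Set J) (m i j : ℕ) :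
    G E m (i + 1) (j + 1) = G E m (i + 1) j ∪ G E m i (j + 1) := by
  ext x
  simp only [G, Set.mem_union, Set.mem_iUnion, Finset.mem_range, exists_prop]
  constructor
  · rintro (⟨k, hk, hx⟩ | ⟨k, hk, hx⟩)
    · exact Or.inl (Or.inl ⟨k, hk, hx⟩)
    · exact Or.inr (Or.inr ⟨k, hk, hx⟩)
  · rintro ((⟨k, hk, hx⟩ | ⟨k, hk, hx⟩) | (⟨k, hk, hx⟩ | ⟨k, hk, hx⟩))
    · exact Or.inl ⟨k, hk, hx⟩
    · exact Or.inr ⟨k, by omega, hx⟩
    · exact Or.inl ⟨k, by omega, hx⟩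
    · exact Or.inr ⟨k, hk, hx⟩

theorem G_inter {E : Idx → Set J} (hdisj : ∀ s t x, x ∈ E s → x ∈ E t → s = t) (m i j : ℕ) :
    G E m i j = G E m (i + 1) j ∩ G E m i (j + 1) := by
  ext x
  simp only [G, Set.mem_union, Set.mem_inter_iff, Set.mem_iUnion, Finset.mem_range, exists_prop]
  constructor
  · rintro (⟨k, hk, hx⟩ | ⟨k, hk, hx⟩)
    · exact ⟨Or.inl ⟨k, by omega, hx⟩, Or.inl ⟨k, hk, hx⟩⟩
    · exact ⟨Or.inr ⟨k, hk, hx⟩, Or.inr ⟨k, by omega, hx⟩⟩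
  · rintro ⟨(⟨k, hk, hx⟩ | ⟨k, hk, hx⟩), (⟨l, hl, hx'⟩ | ⟨l, hl, hx'⟩)⟩
    · exact Or.inl ⟨l, hl, hx'⟩
    · have := hdisj _ _ x hx hx'
      simp at this
    · have := hdisj _ _ x hx hx'
      simp at this
    · exact Or.inr ⟨k, hk, hx⟩

/-- The up-set whose indicator is the counterexample. -/
def Up (E : Idx → Set J) (X : Set J) : Prop :=
  ∃ m i j, i + j = m + 1 ∧ (∀ k < i, E (m, k, false) ⊆ X) ∧ (∀ k < j, E (m, k, true) ⊆ X)

theorem up_G_iff {E : Idx → Set J} (hne : ∀ t, (E t).Nonempty)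
    (hdisj : ∀ s t x, x ∈ E s → x ∈ E t → s = t) (m i j : ℕ) :
    Up E (G E m i j) ↔ m + 1 ≤ i + j := by
  have hf : ∀ m' k, E (m', k, false) ⊆ G E m i j → m' = m ∧ k < i := by
    intro m' k hsub
    obtain ⟨x, hx⟩ := hne (m', k, false)
    have hxG := hsub hx
    simp only [G, Set.mem_union, Set.mem_iUnion, Finset.mem_range, exists_prop] at hxG
    rcases hxG with ⟨l, hl, hx'⟩ | ⟨l, hl, hx'⟩
    · have := hdisj _ _ x hx hx'
      simp only [Prod.mk.injEq, and_true] at this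
      exact ⟨this.1, this.2 ▸ hl⟩
    · have := hdisj _ _ x hx hx'
      simp at this
  have ht : ∀ m' k, E (m', k, true) ⊆ G E m i j → m' = m ∧ k < j := by
    intro m' k hsub
    obtain ⟨x, hx⟩ := hne (m', k, true)
    have hxG := hsub hx
    simp only [G, Set.mem_union, Set.mem_iUnion, Finset.mem_range, exists_prop] at hxG
    rcases hxG with ⟨l, hl, hx'⟩ | ⟨l, hl, hx'⟩
    · have := hdisj _ _ x hx hx'
      simp at this
    · have := hdisj _ _ x hx hx'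
      simp only [Prod.mk.injEq, and_true] at this
      exact ⟨this.1, this.2 ▸ hl⟩
  constructor
  · rintro ⟨m', i', j', hsum, hi', hj'⟩
    have hi : i' ≤ i := by
      rcases Nat.eq_zero_or_pos i' with h | h
      · omega
      · have := (hf m' (i' - 1) (hi' _ (by omega))).2
        omega
    have hj : j' ≤ j := by
      rcases Nat.eq_zero_or_pos j' with h | h
      · omega
      · have := (ht m' (j' - 1) (hj' _ (by omega))).2
        omega
    have hm : m' = m := by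
      rcases Nat.eq_zero_or_pos i' with h | h
      · exact (ht m' 0 (hj' _ (by omega))).1
      · exact (hf m' 0 (hi' _ h)).1
    omega
  · intro h
    refine ⟨m, min i (m + 1), m + 1 - min i (m + 1), by omega, ?_, ?_⟩
    · intro k hk x hx
      exact Or.inl (Set.mem_iUnion₂.2 ⟨k, Finset.mem_range.2 (by omega), hx⟩)
    · intro k hk x hx
      exact Or.inr (Set.mem_iUnion₂.2 ⟨k, Finset.mem_range.2 (by omega), hx⟩)

/-- On every infinite set algebra there is an increasing `{0, 1}`-valued set function (in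
particular one of bounded variation) which is not the difference of two bounded submodular
set functions. -/
theorem result {J : Type*} (𝓑 : Set (Set J)) (h𝓑 : IsSetAlgebra 𝓑) (hinf : 𝓑.Infinite) :
    ∃ φ : 𝓑 → ℝ, HasBoundedVariation φ ∧ IsIncreasing φ ∧ (∀ X, φ X = 0 ∨ φ X = 1) ∧
      ∀ ψ₁ ψ₂ : 𝓑 → ℝ, IsBoundedFun ψ₁ → IsBoundedFun ψ₂ → IsSubmodular ψ₁ →
        IsSubmodular ψ₂ → ¬ ∀ X, φ X = ψ₁ X - ψ₂ X := by
  classical
  obtain ⟨E₀, hE₀, hne₀, hdisj₀⟩ := exists_disjoint_seq h𝓑 hinf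
  let E : Idx → Set J := fun t => E₀ (Encodable.encode t)
  have hE : ∀ t, E t ∈ 𝓑 := fun t => hE₀ _
  have hne : ∀ t, (E t).Nonempty := fun t => hne₀ _
  have hdisj : ∀ s t x, x ∈ E s → x ∈ E t → s = t := fun s t x hs ht =>
    Encodable.encode_injective (hdisj₀ _ _ x hs ht)
  let φ : 𝓑 → ℝ := fun X => if Up E X.1 then 1 else 0
  have hinc : IsIncreasing φ := by
    intro X Y hXY
    by_cases hX : Up E X.1
    · have hY : Up E Y.1 := by
        obtain ⟨m, i, j, h, h1, h2⟩ := hX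
        exact ⟨m, i, j, h, fun k hk => (h1 k hk).trans hXY, fun k hk => (h2 k hk).trans hXY⟩
      simp [φ, hX, hY]
    · simp only [φ, hX, if_false]
      split_ifs <;> norm_num
  refine ⟨φ, ⟨φ, fun _ => 0, hinc, fun _ _ _ => le_refl _, fun X => by simp⟩, hinc,
    fun X => ?_, ?_⟩
  · by_cases hX : Up E X.1
    · right; simp [φ, hX]
    · left; simp [φ, hX]
  intro ψ₁ ψ₂ ⟨b, hb⟩ _ hs1 hs2 heq
  have key : ∀ m : ℕ, ((m + 1 : ℕ) : ℝ) ≤ 4 * b := by
    intro m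
    let Gm : ℕ → ℕ → 𝓑 := fun i j => ⟨G E m i j, G_mem h𝓑 hE m i j⟩
    refine grid_bound (fun i j => ψ₁ (Gm i j)) (fun i j => ψ₂ (Gm i j)) (m + 1) b
      (fun i j => hb _) (fun i j => ?_) (fun i j => ?_) (fun i j => ?_)
    · have := hs1 (Gm (i + 1) j) (Gm i (j + 1)) (Gm i j) (Gm (i + 1) (j + 1))
        (G_inter hdisj m i j) (G_succ_succ E m i j)
      linarith
    · have := hs2 (Gm (i + 1) j) (Gm i (j + 1)) (Gm i j) (Gm (i + 1) (j + 1))
        (G_inter hdisj m i j) (G_succ_succ E m i j)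
      linarith
    · have h1 := heq (Gm i j)
      have h2 : Up E (Gm i j).1 ↔ m + 1 ≤ i + j := up_G_iff hne hdisj m i j
      simp only [φ, h2] at h1
      exact h1.symm
  obtain ⟨n, hn⟩ := exists_nat_gt (4 * b)
  have := key n
  push_cast at this
  linarith

end Pool.Agent.Results.MP_2db6a9_co.InfiniteAlgebras
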